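import Pool.Agent.L5helper98.CQ.Stmts

/-!
Project CQ (MP_b09bc5_pr): TaskFirst (first moments) and TaskNoCN (no set of `j` vertices without
common neighbour).
-/

set_option autoImplicit false

namespace Pool.Agent.L5helper20.CQ

open Finset Pool.Agent.L5helper98.CQ
open scoped Classical

lemma Ex_card_filter {n : ℕ} (p : ℝ) (s : Finset (Fin n)) (A : Fin n → Om n → Prop) :
    Ex p (fun ω : Om n => ((s.filter (fun u => A u ω)).card : ℝ)) = ∑ u ∈ s, Pb p (A u) := by
  have h : (fun ω : Om n => ((s.filter (fun u => A u ω)).card : ℝ)) =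
      fun ω : Om n => ∑ u ∈ s, (if A u ω then (1 : ℝ) else 0) := by
    funext ω
    rw [Finset.card_filter]
    push_cast
    rfl
  rw [h, Ex_sum]
  rfl

lemma Pb_away_le {n : ℕ} {p : ℝ} (h0 : 0 ≤ p) (h1 : p ≤ 1) (T : Finset (Fin n)) (u : Fin n) :
    Pb p (fun ω : Om n => ∀ v ∈ T, ¬ adj ω v u) ≤ (1 - p) ^ (T.card - 1) := by
  have h2 : Pb p (fun ω : Om n => ∀ v ∈ T, ¬ adj ω v u) ≤
      Pb p (fun ω : Om n => ∀ v ∈ T.erase u, ¬ adj ω u v) := by
    apply Pb_mono h0 h1
    intro ω h v hv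
    rw [adj_comm]
    exact h v (Finset.mem_of_mem_erase hv)
  rw [Pb_disjoint_nb p u (T.erase u) (Finset.notMem_erase u T)] at h2
  refine h2.trans (pow_le_pow_of_le_one (by linarith) (by linarith) ?_)
  exact Finset.pred_card_le_card_erase

theorem taskFirst : TaskFirst := by
  intro n p T h0 h1
  refine ⟨?_, ?_⟩
  · have h := Ex_card_filter p (univ : Finset (Fin n)) (fun u ω => ∀ v ∈ T, ¬ adj ω v u)
    have h' : Ex p (fun ω : Om n => ((away ω T).card : ℝ)) =
        ∑ u ∈ (univ : Finset (Fin n)), Pb p (fun ω : Om n => ∀ v ∈ T, ¬ adj ω v u) := by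
      rw [← h]
      congr 1
      funext ω
      congr 2
      ext u
      simp only [away, mem_filter, mem_univ, true_and]
    rw [h']
    calc ∑ u ∈ (univ : Finset (Fin n)), Pb p (fun ω : Om n => ∀ v ∈ T, ¬ adj ω v u)
        ≤ ∑ u ∈ (univ : Finset (Fin n)), (1 - p) ^ (T.card - 1) :=
          Finset.sum_le_sum fun u _ => Pb_away_le h0 h1 T u
      _ = n * (1 - p) ^ (T.card - 1) := by
          rw [Finset.sum_const, Finset.card_univ, Fintype.card_fin, nsmul_eq_mul]
  · have h := Ex_card_filter p T (fun u ω => ∀ v ∈ T, ¬ adj ω v u)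
    have h' : Ex p (fun ω : Om n => ((away ω T ∩ T).card : ℝ)) =
        ∑ u ∈ T, Pb p (fun ω : Om n => ∀ v ∈ T, ¬ adj ω v u) := by
      rw [← h]
      congr 1
      funext ω
      congr 2
      ext u
      simp only [away, mem_inter, mem_filter, mem_univ, true_and]
      tauto
    rw [h']
    calc ∑ u ∈ T, Pb p (fun ω : Om n => ∀ v ∈ T, ¬ adj ω v u)
        ≤ ∑ u ∈ T, (1 - p) ^ (T.card - 1) :=
          Finset.sum_le_sum fun u _ => Pb_away_le h0 h1 T u
      _ = T.card * (1 - p) ^ (T.card - 1) := by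
          rw [Finset.sum_const, nsmul_eq_mul]

lemma Pb_noCN_fixed {n : ℕ} (p : ℝ) (K : Finset (Fin n)) :
    Pb p (fun ω : Om n => ∀ w, w ∉ K → ∃ u ∈ K, ¬ adj ω w u) =
      (1 - p ^ K.card) ^ (n - K.card) := by
  have h1 : Pb p (fun ω : Om n => ∀ w, w ∉ K → ∃ u ∈ K, ¬ adj ω w u) =
      Ex p (fun ω : Om n => ∏ w ∈ univ \ K, (if ∃ u ∈ K, ¬ adj ω w u then (1 : ℝ) else 0)) := by
    unfold Pb
    congr 1
    funext ω
    by_cases h : ∀ w, w ∉ K → ∃ u ∈ K, ¬ adj ω w u
    · rw [if_pos h]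
      symm
      apply Finset.prod_eq_one
      intro w hw
      rw [if_pos (h w (Finset.mem_sdiff.1 hw).2)]
    · rw [if_neg h]
      push Not at h
      obtain ⟨w, hw, hall⟩ := h
      symm
      apply Finset.prod_eq_zero (i := w) (Finset.mem_sdiff.2 ⟨mem_univ _, hw⟩)
      rw [if_neg]
      push Not
      exact hall
  rw [h1, Ex_prod_of_dep p (univ \ K) (fun w => star w K)]
  · have h2 : ∀ w ∈ univ \ K,
        Ex p (fun ω : Om n => (if ∃ u ∈ K, ¬ adj ω w u then (1 : ℝ) else 0)) =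
          1 - p ^ K.card := by
      intro w hw
      have hwK := (Finset.mem_sdiff.1 hw).2
      have h3 : Pb p (fun ω : Om n => ∃ u ∈ K, ¬ adj ω w u) = 1 - p ^ K.card := by
        rw [← Pb_subset_nb p w K K (Finset.Subset.refl _) hwK, ← Pb_not]
        congr 1
        funext ω
        apply propext
        constructor
        · rintro ⟨u, hu, hn⟩ hsub
          exact hn ((mem_filter.1 (hsub hu)).2)
        · intro hsub
          obtain ⟨u, hu, hn⟩ := Finset.not_subset.1 hsub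
          refine ⟨u, hu, fun ha => hn ?_⟩
          exact mem_filter.2 ⟨hu, ha⟩
      rw [← h3, Pb]
      congr 1
      funext ω
      congr
    rw [Finset.prod_congr rfl h2, Finset.prod_const, Finset.card_sdiff_of_subset
      (Finset.subset_univ _), Finset.card_univ, Fintype.card_fin]
  · intro w _ ω ω' h
    have h3 := Dep_nb w K ω ω' h
    have h4 : (∃ u ∈ K, ¬ adj ω w u) ↔ ∃ u ∈ K, ¬ adj ω' w u := by
      have h5 : ∀ u ∈ K, (adj ω w u ↔ adj ω' w u) := by
        intro u hu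
        have := Finset.ext_iff.1 h3 u
        simp only [nb, mem_filter] at this
        tauto
      constructor
      · rintro ⟨u, hu, h6⟩; exact ⟨u, hu, fun h7 => h6 ((h5 u hu).2 h7)⟩
      · rintro ⟨u, hu, h6⟩; exact ⟨u, hu, fun h7 => h6 ((h5 u hu).1 h7)⟩
    simp only [h4]
  · intro w hw w' _ hne
    exact star_disjoint w w' K (Finset.mem_sdiff.1 hw).2 hne

theorem taskNoCN : TaskNoCN := by
  intro n j p h0 h1 hj
  have h2 : Pb p (fun ω : Om n => ∃ K : Finset (Fin n), K.card = j ∧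
      ∀ w, w ∉ K → ∃ u ∈ K, ¬ adj ω w u) ≤
      Pb p (fun ω : Om n => ∃ K ∈ powersetCard j (univ : Finset (Fin n)),
        ∀ w, w ∉ K → ∃ u ∈ K, ¬ adj ω w u) := by
    apply Pb_mono h0 h1
    rintro ω ⟨K, hK, h⟩
    exact ⟨K, mem_powersetCard.2 ⟨Finset.subset_univ _, hK⟩, h⟩
  refine h2.trans ((Pb_exists_mem h0 h1 _ _).trans ?_)
  have h3 : ∀ K ∈ powersetCard j (univ : Finset (Fin n)),
      Pb p (fun ω : Om n => ∀ w, w ∉ K → ∃ u ∈ K, ¬ adj ω w u) ≤
        Real.exp (- (((n : ℝ) - j) * p ^ j)) := by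
    intro K hK
    have hKc := (mem_powersetCard.1 hK).2
    rw [Pb_noCN_fixed, hKc]
    have h4 : 1 - p ^ j ≤ Real.exp (- p ^ j) := by
      have := Real.add_one_le_exp (- p ^ j)
      linarith
    have h5 : 0 ≤ 1 - p ^ j := by
      have := pow_le_one₀ (n := j) h0 h1
      linarith
    calc (1 - p ^ j) ^ (n - j) ≤ (Real.exp (- p ^ j)) ^ (n - j) := pow_le_pow_left₀ h5 h4 _
      _ = Real.exp (- (((n : ℝ) - j) * p ^ j)) := by
          rw [← Real.exp_nat_mul, Nat.cast_sub hj]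
          congr 1
          ring
  calc ∑ K ∈ powersetCard j (univ : Finset (Fin n)),
        Pb p (fun ω : Om n => ∀ w, w ∉ K → ∃ u ∈ K, ¬ adj ω w u)
      ≤ ∑ K ∈ powersetCard j (univ : Finset (Fin n)), Real.exp (- (((n : ℝ) - j) * p ^ j)) :=
        Finset.sum_le_sum h3
    _ = (n.choose j : ℝ) * Real.exp (- (((n : ℝ) - j) * p ^ j)) := by
        rw [Finset.sum_const, Finset.card_powersetCard, Finset.card_univ, Fintype.card_fin,
          nsmul_eq_mul]
    _ ≤ (n : ℝ) ^ j * Real.exp (- (((n : ℝ) - j) * p ^ j)) := by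
        apply mul_le_mul_of_nonneg_right _ (Real.exp_nonneg _)
        exact_mod_cast Nat.choose_le_pow n j

end Pool.Agent.L5helper20.CQ
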